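import Pool.Agent.DAF.Final

/-!
# Least-area polyhedral space tiles need not be convex

For some `n ≥ 4` there is a non-convex `n`-hedral (face-to-face) tile `T` of unit volume whose
surface area is strictly smaller than the surface area of every convex `n`-hedral tile of unit
volume.  In particular every least-area `n`-hedral tile, for this `n`, is non-convex.

The definitions (polyhedron, face, vertex, edge, face-to-face tiling, tile, area, least-area tile)
are in `Pool/Agent/DAF/Defs.lean`.
-/

open MeasureTheory

namespace Pool.Agent.Results.MP_dafad9_co.NonconvexWins

open Pool.Agent.DAF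

/-- **A convex tile is not of least area.**  There is `n ≥ 4` such that

* some non-convex `n`-hedral tile `T` of unit volume has smaller surface area than every convex
  `n`-hedral tile of unit volume;
* every least-area `n`-hedral tile is non-convex. -/
theorem result : ∃ n : ℕ, 4 ≤ n ∧
    (∃ T : Set E3, IsTile n T ∧ volume T = 1 ∧ ¬ Convex ℝ T ∧
      ∀ Q : Set E3, IsTile n Q → volume Q = 1 → Convex ℝ Q → area T < area Q) ∧
    ∀ P : Set E3, IsLeastArea n P → ¬ Convex ℝ P :=
  main

end Pool.Agent.Results.MP_dafad9_co.NonconvexWins
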